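import Pool.Agent.W477.GM.Stms

set_option linter.all false
set_option maxHeartbeats 1000000

namespace Pool.Agent.W477.GM.W191Fin

open Pool.Agent.W477.GM

variable {P : Type 1} [PartialOrder P] [OrderTop P]

/-- extensionality for a class `D` of names containing the children -/
theorem ext_iff (E : EqF P) (D : Nm P → Prop)
    (hD : ∀ (ι : Type) (U : ι → P → Prop) (x : ι → Nm P), D (.mk ι U x) → ∀ i, D (x i))
    (a b : Nm P) (ha : D a) (hb : D b) (q : P) :
    feq a b q ↔ ∀ z, D z → ∀ q', q' ≤ q → (fmem z a q' ↔ fmem z b q') := by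
  constructor
  · intro h z hz q' hq'
    have h1 := E.mono a b q q' hq' h
    exact ⟨fun h2 => E.mcongr z z a b q' (E.refl z q') h1 h2,
      fun h2 => E.mcongr z z b a q' (E.refl z q') (E.symm a b q' h1) h2⟩
  · intro h
    obtain ⟨ι, U, x⟩ := a
    obtain ⟨κ, W, y⟩ := b
    refine E.ext ι U x κ W y q ?_ ?_
    · intro i q' hq' h1
      exact (h (x i) (hD _ _ _ ha i) q' hq').1 h1
    · intro j q' hq' h1
      exact (h (y j) (hD _ _ _ hb j) q' hq').2 h1

/-- congruence of the unordered pair -/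
theorem pr_congr (E : EqF P) (R : PrF P) (x x' y y' : Nm P) (q : P) (h1 : feq x x' q)
    (h2 : feq y y' q) : feq (prN x y) (prN x' y') q := by
  rw [ext_iff E (fun _ => True) (fun _ _ _ _ _ => trivial) _ _ trivial trivial]
  intro z _ q' hq'
  rw [R.mem_pr, R.mem_pr]
  have m1 := fun r (hr : r ≤ q') => E.mono x x' q r (hr.trans hq') h1
  have m2 := fun r (hr : r ≤ q') => E.mono y y' q r (hr.trans hq') h2
  constructor
  · intro h q1 hq1
    obtain ⟨r, hr, h3⟩ := h q1 hq1
    refine ⟨r, hr, ?_⟩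
    rcases h3 with h3 | h3
    · exact Or.inl (E.trans z x x' r h3 (m1 r (hr.trans hq1)))
    · exact Or.inr (E.trans z y y' r h3 (m2 r (hr.trans hq1)))
  · intro h q1 hq1
    obtain ⟨r, hr, h3⟩ := h q1 hq1
    refine ⟨r, hr, ?_⟩
    rcases h3 with h3 | h3
    · exact Or.inl (E.trans z x' x r h3 (E.symm _ _ _ (m1 r (hr.trans hq1))))
    · exact Or.inr (E.trans z y' y r h3 (E.symm _ _ _ (m2 r (hr.trans hq1))))

theorem upd {D : Nm P → Prop} {v : ℕ → Nm P} (hv : ∀ i, D (v i)) (m : ℕ) {z : Nm P} (hz : D z) :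
    ∀ i, D (Function.update v m z i) := by
  intro i
  by_cases h : i = m
  · subst h
    rw [Function.update_self]
    exact hz
  · rw [Function.update_of_ne h]
    exact hv i

/-- the unordered pair -/
theorem isPr_iff (E : EqF P) (R : PrF P) (S : SysData P) (F : FcF P (HS S)) (H : HsF P S)
    (p x y m : ℕ) (h1 : p ≠ m) (h2 : x ≠ m) (h3 : y ≠ m) (v : ℕ → Nm P) (hv : ∀ i, HS S (v i))
    (q : P) : Fc (HS S) (Fm.isPr p x y m) v q ↔ feq (v p) (prN (v x) (v y)) q := by
  rw [ext_iff E (HS S) H.child _ _ (hv p) (H.pr _ _ (hv x) (hv y))]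
  unfold Fm.isPr
  change (∀ z, HS S z → Fc (HS S) _ (Function.update v m z) q) ↔ _
  refine forall_congr' fun z => forall_congr' fun hz => ?_
  rw [F.iff]
  refine forall_congr' fun q' => forall_congr' fun hq' => ?_
  rw [F.or, R.mem_pr]
  simp only [Fc, Function.update_self, Function.update_of_ne h1, Function.update_of_ne h2,
    Function.update_of_ne h3]

/-- the ordered pair -/
theorem isOp_iff (E : EqF P) (R : PrF P) (S : SysData P) (F : FcF P (HS S)) (H : HsF P S)
    (p x y k l m : ℕ) (hpk : p ≠ k) (hpl : p ≠ l) (hpm : p ≠ m) (hxk : x ≠ k) (hxl : x ≠ l)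
    (hxm : x ≠ m) (hyk : y ≠ k) (hyl : y ≠ l) (hym : y ≠ m) (hkl : k ≠ l) (hkm : k ≠ m)
    (hlm : l ≠ m) (v : ℕ → Nm P) (hv : ∀ i, HS S (v i)) (q : P) :
    Fc (HS S) (Fm.isOp p x y k l m) v q ↔ feq (v p) (opN (v x) (v y)) q := by
  have key : ∀ a b, HS S a → HS S b → ∀ s,
      (Fc (HS S) (.and (Fm.isPr k x x m) (.and (Fm.isPr l x y m) (Fm.isPr p k l m)))
        (Function.update (Function.update v k a) l b) s ↔
      feq a (prN (v x) (v x)) s ∧ feq b (prN (v x) (v y)) s ∧ feq (v p) (prN a b) s) := by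
    intro a b ha hb s
    have hw := upd (upd hv k ha) l hb
    rw [F.and, F.and, isPr_iff E R S F H _ _ _ _ hkm hxm hxm _ hw,
      isPr_iff E R S F H _ _ _ _ hlm hxm hym _ hw, isPr_iff E R S F H _ _ _ _ hpm hkm hlm _ hw]
    simp only [Function.update_self, Function.update_of_ne hpk, Function.update_of_ne hpl,
      Function.update_of_ne hxk, Function.update_of_ne hxl, Function.update_of_ne hyk,
      Function.update_of_ne hyl, Function.update_of_ne hkl]
  unfold Fm.isOp
  rw [F.ex]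
  constructor
  · intro h
    apply E.dense
    intro q' hq'
    obtain ⟨r, hr, a, ha, h1⟩ := h q' hq'
    rw [F.ex] at h1
    obtain ⟨s, hs, b, hb, h2⟩ := h1 r le_rfl
    rw [key a b ha hb] at h2
    obtain ⟨h3, h4, h5⟩ := h2
    exact ⟨s, hs.trans hr, E.trans _ _ _ s h5 (pr_congr E R _ _ _ _ s h3 h4)⟩
  · intro h q' hq'
    have ha := H.pr _ _ (hv x) (hv x)
    have hb := H.pr _ _ (hv x) (hv y)
    refine ⟨q', le_rfl, prN (v x) (v x), ha, ?_⟩
    rw [F.ex]
    intro r hr
    refine ⟨r, le_rfl, prN (v x) (v y), hb, ?_⟩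
    rw [key _ _ ha hb]
    exact ⟨E.refl _ _, E.refl _ _, E.mono _ _ q r (hr.trans hq') h⟩

theorem fin_holds (h : P_EQ) (h2 : P_FC) (h3 : P_HS) (h6 : P_PR) : P_FIN := by
  intro P _ _ S hS x y f hx hy hf v hv p
  have E := h P
  have F := h2 P (HS S)
  have H := h3 P S hS
  have R := h6 P
  unfold fIn Fm.inP
  have key : ∀ a, HS S a → ∀ s,
      (Fc (HS S) (.and (Fm.isOp 10 x y 11 12 13) (.mem 10 f)) (Function.update v 10 a) s ↔
      feq a (opN (v x) (v y)) s ∧ fmem a (v f) s) := by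
    intro a ha s
    rw [F.and, isOp_iff E R S F H 10 x y 11 12 13 (by omega) (by omega) (by omega) (by omega)
      (by omega) (by omega) (by omega) (by omega) (by omega) (by omega) (by omega) (by omega) _
      (upd hv 10 ha)]
    simp only [Fc, Function.update_self, Function.update_of_ne (show x ≠ 10 by omega),
      Function.update_of_ne (show y ≠ 10 by omega), Function.update_of_ne (show f ≠ 10 by omega)]
  rw [F.ex]
  constructor
  · intro h1
    apply E.mdense
    intro q hq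
    obtain ⟨r, hr, a, ha, h4⟩ := h1 q hq
    rw [key a ha] at h4
    exact ⟨r, hr, E.mcongr _ _ _ _ r h4.1 (E.refl _ _) h4.2⟩
  · intro h1 q hq
    have ha := H.op _ _ (hv x) (hv y)
    refine ⟨q, le_rfl, opN (v x) (v y), ha, ?_⟩
    rw [key _ ha]
    exact ⟨E.refl _ _, E.mmono _ _ p q hq h1⟩

end Pool.Agent.W477.GM.W191Fin
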